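import Pool.Agent.H943.DP.AppC
import Pool.Graph.R_pool_sql_team_seeded_63374d34.N208.BT.All

/-!
# Places of signature `(1, n)`: all full subalgebras contain the long roots
-/

set_option autoImplicit false
set_option linter.unusedSectionVars false

open Module Matrix

noncomputable section

namespace Pool.Agent.H943.MX

open Pool.Agent.Y102 Pool.Agent.W516.DR Pool.Agent.H204R3.GP Pool.Agent.W516.KC
  Pool.Agent.H204R3.SP Pool.Agent.TH119.MX Pool.Agent.R917 Pool.Agent.N208.AM Pool.Agent.N208.AD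
  Pool.Agent.N208.BT

variable {g : ℕ} {A : AbVar g} {z : Module.End ℚ A.H1} {al : ℝ}

theorem extC {P : Module.End ℚ A.H1} (hP : P ∈ A.EA) (c : ℂ) (u : Fin g → ℂ) :
    A.ext P (c • u) = c • A.ext P u :=
  AbVar.CR_complex A.endAlg (Submodule.subset_span ⟨P, hP, rfl⟩) c u

section

variable {N : ℕ} {sg : Fin N → ℝ} {φ : VN N →ₗ[ℝ] (Fin g → ℂ)}

theorem phi_smul (_hz : HQ A z al) (w : WN A z al N sg φ) (c : ℂ) (x : VN N) :
    φ (c • x) = c.re • φ x + c.im • (al⁻¹ • A.ext z (φ x)) := by
  rw [Pool.Agent.N755.BGRR.c_smul c x, map_add, map_smul, map_smul, w.mulI]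

theorem phi_single (hz : HQ A z al) (w : WN A z al N sg φ) (i : Fin N) :
    Eig A z (sg i * al) (φ (Pi.single i 1)) := by
  have e0 : A.ext z (φ (Pi.single i 1)) = al • φ (Complex.I • Pi.single i 1) := by
    rw [w.mulI, smul_smul, mul_inv_cancel₀ hz.ne, one_smul]
  have e1 : Complex.I • φ (Pi.single i 1) = (sg i) • φ (Complex.I • Pi.single i 1) := by
    rw [w.cx, ← map_smul]
    congr 1
    funext k
    rw [Pi.smul_apply, Pi.smul_apply, smul_eq_mul, Complex.real_smul]
    by_cases hk : k = i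
    · subst hk
      rfl
    · rw [Pi.single_eq_of_ne hk, mul_zero, mul_zero, mul_zero]
  have e2 : sg i * sg i = 1 := by
    rcases w.isSg i with h | h <;> rw [h] <;> norm_num
  unfold Eig
  rw [e0]
  have e3 : (((sg i * al : ℝ) : ℂ) * Complex.I) • φ (Pi.single i 1) =
      (sg i * al) • (Complex.I • φ (Pi.single i 1)) := by
    rw [mul_smul]
    rfl
  rw [e3, e1, smul_smul]
  congr 1
  rw [mul_right_comm, e2, one_mul]

/-- If the eigenspace of `i al` is a simple module over the endomorphisms then there is only one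
positive sign. -/
theorem unique_plus (hp : HP A z al) (w : WN A z al N sg φ) {i j : Fin N} (hi : sg i = 1)
    (hj : sg j = 1) : i = j := by
  have hz : HQ A z al := hp.toHQ
  by_contra hij
  have hx : φ (Pi.single i 1) ≠ 0 := by
    intro h0
    have h1 : (Pi.single i 1 : VN N) = 0 := w.inj (by rw [h0, map_zero])
    have h2 := congrFun h1 i
    rw [Pi.single_eq_same, Pi.zero_apply] at h2
    exact one_ne_zero h2
  have e1 := phi_single hz w i
  have e2 := phi_single hz w j
  rw [hi, one_mul] at e1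
  rw [hj, one_mul] at e2
  have hs := hp.simple _ _ hx e1 e2
  -- the operator
  obtain ⟨T, hT1, hT2, hT3, -⟩ : ∃ T : Module.End ℝ (Fin g → ℂ),
      (∀ X ∈ CB A, T * A.ext X = A.ext X * T) ∧ T * A.ext z = A.ext z * T ∧
        T (φ (Pi.single i 1)) = φ (Pi.single j 1) ∧ Eig A z al (φ (Pi.single j 1)) := by
    clear e2
    generalize φ (Pi.single j 1) = y at hs
    induction hs using Submodule.span_induction with
    | mem y hy =>
      obtain ⟨P, hP, rfl⟩ := hy
      refine ⟨A.ext P, fun X hX => ?_, ?_, rfl, ?_⟩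
      · rw [← Pool.Agent.N208.AD.ext_mul, ← Pool.Agent.N208.AD.ext_mul, hX P hP]
      · rw [← Pool.Agent.N208.AD.ext_mul, ← Pool.Agent.N208.AD.ext_mul, hz.cen P hP]
      · unfold Eig
        have e3 : A.ext z (A.ext P (φ (Pi.single i 1))) = A.ext P (A.ext z (φ (Pi.single i 1))) := by
          rw [← Module.End.mul_apply, ← Module.End.mul_apply, ← Pool.Agent.N208.AD.ext_mul,
            ← Pool.Agent.N208.AD.ext_mul, hz.cen P hP]
        rw [e3, show A.ext z (φ (Pi.single i 1)) = _ from e1, extC hP]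
    | zero =>
      refine ⟨0, fun X _ => by rw [zero_mul, mul_zero], by rw [zero_mul, mul_zero], rfl, ?_⟩
      unfold Eig
      rw [map_zero, smul_zero]
    | add a b _ _ ha hb =>
      obtain ⟨T, h1, h2, h3, h4⟩ := ha
      obtain ⟨T', h1', h2', h3', h4'⟩ := hb
      refine ⟨T + T', fun X hX => ?_, ?_, ?_, ?_⟩
      · rw [add_mul, mul_add, h1 X hX, h1' X hX]
      · rw [add_mul, mul_add, h2, h2']
      · rw [LinearMap.add_apply, h3, h3']
      · unfold Eig at h4 h4' ⊢
        rw [map_add, h4, h4', smul_add]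
    | smul c a _ ha =>
      obtain ⟨T, h1, h2, h3, h4⟩ := ha
      have hzC : ∀ X ∈ CB A, A.ext z * A.ext X = A.ext X * A.ext z := fun X hX => by
        rw [← Pool.Agent.N208.AD.ext_mul, ← Pool.Agent.N208.AD.ext_mul, hX z hz.mem]
      refine ⟨c.re • T + (c.im * al⁻¹) • (T * A.ext z), fun X hX => ?_, ?_, ?_, ?_⟩
      · rw [add_mul, mul_add, smul_mul_assoc, smul_mul_assoc, mul_smul_comm, mul_smul_comm, h1 X hX,
          mul_assoc, hzC X hX, ← mul_assoc, h1 X hX, mul_assoc]
      · rw [add_mul, mul_add, smul_mul_assoc, smul_mul_assoc, mul_smul_comm, mul_smul_comm, h2]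
        simp only [mul_assoc, h2]
      · rw [LinearMap.add_apply, LinearMap.smul_apply, LinearMap.smul_apply, h2,
          Module.End.mul_apply, h3, show A.ext z a = _ from h4]
        have e3 : (c.im * al⁻¹) • ((((al : ℝ) : ℂ) * Complex.I) • a) =
            c.im • (Complex.I • a) := by
          have e4 : ((((al : ℝ) : ℂ) * Complex.I) • a) = al • (Complex.I • a) := by
            rw [mul_smul]
            rfl
          rw [e4, smul_smul, mul_assoc, inv_mul_cancel₀ hz.ne, mul_one]
        rw [e3]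
        have e5 : c.re • a + c.im • (Complex.I • a) = ((c.re : ℂ) + (c.im : ℂ) * Complex.I) • a := by
          rw [add_smul, mul_smul]
          rfl
        rw [e5, Complex.re_add_im]
      · unfold Eig at h4 ⊢
        rw [extC hz.mem, h4, smul_comm]
  -- it is a scalar on `W`
  let U : Submodule ℂ (VN N) :=
    { carrier := {v | ∃ v', T (φ v) = φ v'}
      zero_mem' := ⟨0, by rw [map_zero, map_zero]⟩
      add_mem' := by
        rintro a b ⟨a', ha⟩ ⟨b', hb⟩
        exact ⟨a' + b', by rw [map_add, map_add, map_add, ha, hb]⟩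
      smul_mem' := by
        rintro c a ⟨a', ha⟩
        refine ⟨c • a', ?_⟩
        have e3 : T (A.ext z (φ a)) = A.ext z (φ a') := by
          rw [← Module.End.mul_apply, hT2, Module.End.mul_apply, ha]
        rw [phi_smul hz w, phi_smul hz w, map_add, map_smul, map_smul, map_smul, ha, e3] }
  have hU : U = ⊤ := by
    rcases w.simple U (by
      rintro X hX x ⟨x', hx'⟩ y hy
      obtain ⟨y', hy'⟩ := w.stab X hX x'
      refine ⟨y', ?_⟩
      have e3 : T (A.ext X (φ x)) = A.ext X (T (φ x)) := by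
        rw [← Module.End.mul_apply, hT1 X (Pool.Agent.N768.BGPD.NA_CB hX), Module.End.mul_apply]
      rw [← hy, e3, hx', hy']) with h | h
    · exfalso
      have h1 : (Pi.single i 1 : VN N) ∈ U := ⟨_, hT3⟩
      rw [h, Submodule.mem_bot] at h1
      apply hx
      rw [h1, map_zero]
    · exact h
  have hch : ∀ v, ∃ v', T (φ v) = φ v' := fun v => by
    have h1 : v ∈ U := by rw [hU]; trivial
    exact h1
  choose t ht using hch
  let tL : VN N →ₗ[ℂ] VN N :=
    { toFun := t
      map_add' := fun a b => w.inj (by rw [← ht, map_add, map_add, map_add, ht, ht])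
      map_smul' := fun c a => w.inj (by
        have e3 : T (A.ext z (φ a)) = A.ext z (φ (t a)) := by
          rw [← Module.End.mul_apply, hT2, Module.End.mul_apply, ht]
        rw [← ht, RingHom.id_apply, phi_smul hz w, phi_smul hz w, map_add, map_smul, map_smul,
          map_smul, ht, e3]) }
  have hne : Nontrivial (VN N) := ⟨⟨Pi.single i 1, 0, fun h0 => hx (by rw [h0, map_zero])⟩⟩
  obtain ⟨c, hc⟩ := Module.End.exists_eigenvalue tL
  obtain ⟨v, hv⟩ := hc.exists_hasEigenvector
  have hK : LinearMap.ker (tL - c • 1) = ⊤ := by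
    rcases w.simple (LinearMap.ker (tL - c • 1)) (by
      intro X hX x hx0 y hy
      rw [LinearMap.mem_ker, LinearMap.sub_apply, LinearMap.smul_apply, Module.End.one_apply,
        sub_eq_zero] at hx0 ⊢
      apply w.inj
      change φ (t y) = _
      change t x = _ at hx0
      have e3 : T (A.ext X (φ x)) = A.ext X (T (φ x)) := by
        rw [← Module.End.mul_apply, hT1 X (Pool.Agent.N768.BGPD.NA_CB hX), Module.End.mul_apply]
      have e4 : A.ext z (A.ext X (φ x)) = A.ext X (A.ext z (φ x)) := by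
        rw [← Module.End.mul_apply, ← Module.End.mul_apply, ← Pool.Agent.N208.AD.ext_mul,
          ← Pool.Agent.N208.AD.ext_mul, Pool.Agent.N768.BGPD.NA_CB hX z hz.mem]
      rw [← ht, ← hy, e3, ht, hx0, phi_smul hz w, phi_smul hz w, map_add, map_smul, map_smul,
        map_smul, ← e4, hy]) with h | h
    · exfalso
      have h1 : v ∈ LinearMap.ker (tL - c • 1) := by
        rw [LinearMap.mem_ker, LinearMap.sub_apply, LinearMap.smul_apply, Module.End.one_apply,
          hv.apply_eq_smul, sub_self]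
      rw [h, Submodule.mem_bot] at h1
      exact hv.2 h1
    · exact h
  have h1 : (Pi.single i 1 : VN N) ∈ LinearMap.ker (tL - c • 1) := by rw [hK]; trivial
  rw [LinearMap.mem_ker, LinearMap.sub_apply, LinearMap.smul_apply, Module.End.one_apply,
    sub_eq_zero] at h1
  change t (Pi.single i 1) = _ at h1
  have h2 : (Pi.single j 1 : VN N) = c • Pi.single i 1 := by
    rw [← h1]
    apply w.inj
    rw [← ht, hT3]
  have h3 := congrFun h2 j
  rw [Pi.single_eq_same, Pi.smul_apply, Pi.single_eq_of_ne (Ne.symm hij), smul_zero] at h3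
  exact one_ne_zero h3

/-- the coordinates after a permutation -/
def rex {N : ℕ} (σ : Equiv.Perm (Fin N)) (φ : VN N →ₗ[ℝ] (Fin g → ℂ)) : VN N →ₗ[ℝ] (Fin g → ℂ) :=
  φ ∘ₗ (LinearMap.funLeft ℝ ℂ σ)

theorem rex_apply {N : ℕ} (σ : Equiv.Perm (Fin N)) (φ : VN N →ₗ[ℝ] (Fin g → ℂ)) (x : VN N) :
    rex σ φ x = φ (fun i => x (σ i)) := rfl

theorem rex_inv {N : ℕ} (σ : Equiv.Perm (Fin N)) (φ : VN N →ₗ[ℝ] (Fin g → ℂ)) (x : VN N) :
    rex σ φ (fun i => x (σ.symm i)) = φ x := by
  rw [rex_apply]
  congr 1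
  funext i
  rw [Equiv.symm_apply_apply]

theorem hs_rex {N : ℕ} (σ : Equiv.Perm (Fin N)) (sg : Fin N → ℝ) (x y : VN N) :
    hs sg (fun i => x (σ i)) (fun i => y (σ i)) = hs (fun k => sg (σ.symm k)) x y := by
  unfold hs
  rw [← Equiv.sum_comp σ (fun k => ((sg (σ.symm k) : ℝ) : ℂ) * x k * star (y k))]
  refine Finset.sum_congr rfl fun i _ => ?_
  rw [Equiv.symm_apply_apply]

theorem wn_rex (w : WN A z al N sg φ) (σ : Equiv.Perm (Fin N)) :
    WN A z al N (fun k => sg (σ.symm k)) (rex σ φ) where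
  isSg := fun i => w.isSg _
  pos := w.pos
  inj := by
    intro x y hxy
    rw [rex_apply, rex_apply] at hxy
    have h1 := w.inj hxy
    funext i
    have h2 := congrFun h1 (σ.symm i)
    simpa using h2
  mulI := fun x => by
    rw [rex_apply, rex_apply, ← w.mulI]
    rfl
  cx := fun x => by
    rw [rex_apply, rex_apply, w.cx]
    congr 1
    funext i
    rw [Equiv.symm_apply_apply]
  form := fun x y => by
    rw [rex_apply, rex_apply, ← w.form, hs_rex]
  stab := fun X hX x => by
    obtain ⟨y, hy⟩ := w.stab X hX (fun i => x (σ i))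
    exact ⟨fun i => y (σ.symm i), by rw [rex_inv, rex_apply, hy]⟩
  simple := by
    intro U hU
    let L : VN N ≃ₗ[ℂ] VN N := LinearEquiv.funCongrLeft ℂ ℂ σ
    have hL : ∀ x : VN N, L x = fun i => x (σ i) := fun x => rfl
    have hL' : ∀ x : VN N, L.symm x = fun i => x (σ.symm i) := fun x => rfl
    have h1 := w.simple (U.map (L : VN N →ₗ[ℂ] VN N)) (by
      rintro X hX _ ⟨x, hx, rfl⟩ y hy
      refine ⟨L.symm y, ?_, by simp⟩
      refine hU X hX x hx _ ?_
      rw [hL', rex_inv, ← hy]
      rfl)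
    rcases h1 with h1 | h1
    · left
      rw [eq_bot_iff]
      intro x hx
      have h2 : L x ∈ U.map (L : VN N →ₗ[ℂ] VN N) := ⟨x, hx, rfl⟩
      rw [h1, Submodule.mem_bot] at h2
      rw [Submodule.mem_bot]
      exact L.injective (by rw [h2, map_zero])
    · right
      rw [eq_top_iff]
      intro x _
      have h2 : L x ∈ U.map (L : VN N →ₗ[ℂ] VN N) := by rw [h1]; trivial
      obtain ⟨y, hy, hxy⟩ := h2
      have h3 : y = x := L.injective hxy
      rwa [← h3]
  gen := by
    intro y hy h0 x hx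
    refine w.gen y hy (fun v => ?_) x hx
    rw [← rex_inv σ φ v]
    exact h0 _

/-- The long roots do not depend on the order of the coordinates. -/
theorem big_rex (σ : Equiv.Perm (Fin N)) {S : Submodule ℚ (Module.End ℚ A.H1)}
    (h : Big (fun k => sg (σ.symm k)) (rN A S (rex σ φ))) : Big sg (rN A S φ) := by
  intro x hx
  have e1 : (fun i => (fun k => x (σ.symm k)) (σ i)) = x := by
    funext i
    change x (σ.symm (σ i)) = x i
    rw [Equiv.symm_apply_apply]
  have h0 : hs (fun k => sg (σ.symm k)) (fun k => x (σ.symm k)) (fun k => x (σ.symm k)) = 0 := by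
    rw [← hs_rex, e1]
    exact hx
  obtain ⟨y, hy, h1⟩ := h _ h0
  refine ⟨y, hy, fun u => ?_⟩
  have h2 := h1 (fun k => u (σ.symm k))
  rw [rex_inv] at h2
  rw [h2, rex_apply]
  congr 1
  rw [Matrix.smul_mulVec, Matrix.smul_mulVec, Pool.Agent.N27.BGPA.Rs_apply,
    Pool.Agent.N27.BGPA.Rs_apply, ← hs_rex σ sg (fun k => u (σ.symm k)) (fun k => x (σ.symm k)), e1]
  have e2 : (fun i => (fun k => u (σ.symm k)) (σ i)) = u := by
    funext i
    change u (σ.symm (σ i)) = u i
    rw [Equiv.symm_apply_apply]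
  rw [e2]
  funext i
  simp only [Pi.smul_apply, Equiv.symm_apply_apply]

theorem wd_of {n : ℕ} {φ : V n →ₗ[ℝ] (Fin g → ℂ)} (w : WN A z al (n + 1) (sg1 n) φ) :
    WD A z al n φ where
  inj := w.inj
  mulI := w.mulI
  cx := fun x => by
    rw [w.cx]
    congr 1
    funext i
    unfold sg1
    split_ifs
    · push_cast
      ring
    · push_cast
      ring
  form := fun x y => by rw [← hs_sg1]; exact w.form x y
  stab := w.stab
  simple := w.simple
  gen := w.gen

/-- **Places of signature `(1, n)`.** -/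
theorem big_ball (hp : HP A z al) (hsep : Sep A z {al}) {N : ℕ} {sg : Fin N → ℝ}
    {φ : VN N →ₗ[ℝ] (Fin g → ℂ)} (w : WN A z al N sg φ) (hm : Mixed sg)
    {𝔮 : Submodule ℚ (Module.End ℚ A.H1)} (hq : A.Full 𝔮) : Big sg (rN A (der 𝔮) φ) := by
  obtain ⟨⟨i0, hi0⟩, -⟩ := hm
  obtain ⟨n, rfl⟩ : ∃ n, N = n + 1 := ⟨N - 1, (Nat.succ_pred_eq_of_pos w.pos).symm⟩
  let σ : Equiv.Perm (Fin (n + 1)) := Equiv.swap 0 i0
  have hsg : (fun k => sg (σ.symm k)) = sg1 n := by
    funext k
    unfold sg1
    by_cases hk : k = 0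
    · rw [if_pos hk, hk]
      change sg ((Equiv.swap 0 i0).symm 0) = 1
      rw [Equiv.symm_swap, Equiv.swap_apply_left, hi0]
    · rw [if_neg hk]
      rcases w.isSg (σ.symm k) with h | h
      · exfalso
        have h1 := unique_plus hp w h hi0
        apply hk
        have h2 : k = σ i0 := by rw [← h1, Equiv.apply_symm_apply]
        rw [h2]
        change Equiv.swap 0 i0 i0 = 0
        rw [Equiv.swap_apply_right]
      · exact h
  refine big_rex σ ?_
  have w' := wn_rex w σ
  rw [hsg] at w' ⊢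
  have hB : HB A z {al} :=
    { hp := fun b hb => by
        rw [Finset.mem_singleton] at hb
        rw [hb]
        exact hp
      disj := fun b hb => by
        rw [Finset.mem_singleton] at hb ⊢
        rw [hb]
        intro h0
        apply hp.ne
        linarith
      sep := hsep }
  have hWD := wd_of w'
  have hRR := Pool.Agent.N163.BTRR2.main g A z al hp n _ hWD 𝔮 hq
  rcases local_main n _ hRR with h1 | h1
  · intro x hx
    rw [hs_sg1] at hx
    obtain ⟨y, hy, h2⟩ := h1 x hx
    refine ⟨y, hy, fun u => ?_⟩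
    rw [h2]
    congr 1
    rw [Matrix.smul_mulVec, Matrix.smul_mulVec, Pool.Agent.N27.BGPA.Rs_apply,
      Pool.Agent.N208.BT.R_mulVec, hs_sg1]
  · exact absurd h1 (s_S1 g A z {al} hB al (Finset.mem_singleton_self _) n _ hWD 𝔮 hq)

end

end Pool.Agent.H943.MX
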