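import Pool.Agent.H943.MX.Ball

/-!
# Mixed parts: places of signature `(1, n)` and places given by division algebras of prime power degree
-/

set_option autoImplicit false
set_option linter.unusedSectionVars false

open Module Matrix

noncomputable section

namespace Pool.Agent.H943.MX

open Pool.Agent.Y102 Pool.Agent.W516.DR Pool.Agent.H204R3.GP Pool.Agent.W516.KC
  Pool.Agent.H204R3.SP Pool.Agent.TH119.MX Pool.Agent.R917 Pool.Agent.N208.AM Pool.Agent.N208.AD
  Pool.Agent.N208.BT Pool.Agent.H943.DP Pool.Agent.N773.BTWA2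

variable {g : ℕ} {A : AbVar g} {z e : Module.End ℚ A.H1} {al : ℝ} {q : ℕ}

/-- The place of `al` belongs to the factor given by the idempotent `e`, and the commutant of the
endomorphisms is a division algebra of prime power degree on the image of `z e`. -/
structure DivPl (A : AbVar g) (z e : Module.End ℚ A.H1) (al : ℝ) (q : ℕ) : Prop where
  mem : e ∈ A.EA
  cen : ∀ P ∈ A.EA, e * P = P * e
  idem : e * e = e
  sym : ∀ u v, A.om (e u) v = A.om u (e v)
  one : ∀ x, Eig A z al x ∨ Eig A z (-al) x → A.ext e x = x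
  pd : PPD A (z * e) q

section

variable (hz : HQ A z al) (h : DivPl A z e al q)

include hz h

theorem e_V0 {x : Fin g → ℂ} (hx : x ∈ V0 A z al) : A.ext e x = x := by
  rw [mem_V0] at hx
  have hc : (al : ℂ) ≠ 0 := by exact_mod_cast hz.ne
  have h1 : A.ext z (A.ext z x) = -(((al : ℂ) ^ 2) • x) := by
    rw [eq_neg_iff_add_eq_zero, ← hx]
    congr 1
    rw [← Complex.ofReal_pow]
    rfl
  -- the components
  have key : ∀ b : ℝ, b ^ 2 = al ^ 2 → Eig A z b (A.ext z x + ((b : ℂ) * Complex.I) • x) := by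
    intro b hb
    unfold Eig
    rw [map_add, h1, extC hz.mem, smul_add, smul_smul]
    have e1 : ((b : ℂ) * Complex.I) * ((b : ℂ) * Complex.I) = -((al : ℂ) ^ 2) := by
      have e2 : ((b : ℂ)) ^ 2 = (al : ℂ) ^ 2 := by exact_mod_cast hb
      linear_combination ((b : ℂ)) ^ 2 * Complex.I_mul_I - e2
    rw [e1, neg_smul, add_comm]
  have h2 := h.one _ (Or.inl (key al rfl))
  have h3 := h.one _ (Or.inr (key (-al) (by ring)))
  rw [map_add, extC h.mem] at h2 h3
  have e1 : (((-al : ℝ) : ℂ) * Complex.I) = -((al : ℂ) * Complex.I) := by push_cast; ring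
  rw [e1, neg_smul, neg_smul] at h3
  have h4 : (2 : ℂ) • (((al : ℂ) * Complex.I) • A.ext e x) =
      (2 : ℂ) • (((al : ℂ) * Complex.I) • x) := by
    have h5 := congrArg₂ (fun a b : Fin g → ℂ => a - b) h2 h3
    rw [two_smul, two_smul]
    have e2 : A.ext e (A.ext z x) + ((al : ℂ) * Complex.I) • A.ext e x -
        (A.ext e (A.ext z x) + -(((al : ℂ) * Complex.I) • A.ext e x)) =
        ((al : ℂ) * Complex.I) • A.ext e x + ((al : ℂ) * Complex.I) • A.ext e x := by abel
    have e3 : A.ext z x + ((al : ℂ) * Complex.I) • x -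
        (A.ext z x + -(((al : ℂ) * Complex.I) • x)) =
        ((al : ℂ) * Complex.I) • x + ((al : ℂ) * Complex.I) • x := by abel
    rw [e2, e3] at h5
    exact h5
  have h6 := smul_right_injective _ (two_ne_zero (α := ℂ)) h4
  exact smul_right_injective _ (mul_ne_zero hc Complex.I_ne_zero) h6

theorem V0_eq (x : Fin g → ℂ) : x ∈ V0 A (z * e) al ↔ x ∈ V0 A z al := by
  have hcomm : ∀ y, A.ext e (A.ext z y) = A.ext z (A.ext e y) := fun y => by
    rw [← Module.End.mul_apply, ← Module.End.mul_apply, ← Pool.Agent.N208.AD.ext_mul,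
      ← Pool.Agent.N208.AD.ext_mul, h.cen z hz.mem]
  have hidem : ∀ y, A.ext e (A.ext e y) = A.ext e y := fun y => by
    rw [← Module.End.mul_apply, ← Pool.Agent.N208.AD.ext_mul, h.idem]
  have hze : ∀ y, A.ext (z * e) (A.ext (z * e) y) = A.ext e (A.ext z (A.ext z y)) := fun y => by
    rw [Pool.Agent.N208.AD.ext_mul, Module.End.mul_apply, Module.End.mul_apply, ← hcomm y,
      ← hcomm, ← hcomm, hidem, hcomm]
  rw [mem_V0, mem_V0, hze]
  constructor
  · intro hx
    have h1 : A.ext e x = x := by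
      have h2 : (al ^ 2) • A.ext e x = (al ^ 2) • x := by
        have h3 := congrArg (A.ext e) hx
        rw [map_add, hidem, map_smul, map_zero] at h3
        have h4 : A.ext e (A.ext z (A.ext z x)) = -((al ^ 2) • x) := eq_neg_of_add_eq_zero_left hx
        rw [h4] at h3
        exact eq_of_sub_eq_zero (by rw [← h3]; abel)
      exact smul_right_injective _ (pow_ne_zero 2 hz.ne) h2
    rw [hcomm, hcomm, h1] at hx
    exact hx
  · intro hx
    rw [hcomm, hcomm, e_V0 hz h ((mem_V0).2 hx)]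
    exact hx

theorem hq_e : HQ A (z * e) al where
  mem := A.EA_mul hz.mem h.mem
  cen := fun P hP => by
    rw [mul_assoc, h.cen P hP, ← mul_assoc, hz.cen P hP, mul_assoc]
  skew := by
    intro u v
    have h1 := hz.skew (e u) v
    rw [h.sym, ← Module.End.mul_apply, ← Module.End.mul_apply, h.cen z hz.mem] at h1
    exact h1
  gen := by
    intro P hP hc
    obtain ⟨f, hf⟩ := hz.gen P hP hc
    refine ⟨f, ?_⟩
    have hec : e * z = z * e := h.cen z hz.mem
    have key : ∀ f : Polynomial ℚ, Polynomial.aeval z f * e = Polynomial.aeval (z * e) f * e := by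
      intro f
      induction f using Polynomial.induction_on with
      | C a => rw [Polynomial.aeval_C, Polynomial.aeval_C]
      | add p q hp hq => rw [map_add, map_add, add_mul, add_mul, hp, hq]
      | monomial n a ih =>
        rw [pow_succ, ← mul_assoc,
          map_mul (Polynomial.aeval z) (Polynomial.C a * Polynomial.X ^ n) Polynomial.X,
          map_mul (Polynomial.aeval (z * e)) (Polynomial.C a * Polynomial.X ^ n) Polynomial.X,
          Polynomial.aeval_X, Polynomial.aeval_X,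
          mul_assoc _ z e, ← hec, ← mul_assoc, ih]
        simp only [mul_assoc, h.idem, hec]
    rw [← mul_assoc, hf, mul_assoc, ← hec, ← mul_assoc, key f, mul_assoc, hec]
  ne := hz.ne
  ex := by
    obtain ⟨x, hx, hx0⟩ := hz.ex
    exact ⟨x, (V0_eq hz h x).2 hx, hx0⟩

theorem wn_e {N : ℕ} {sg : Fin N → ℝ} {φ : VN N →ₗ[ℝ] (Fin g → ℂ)} (w : WN A z al N sg φ) :
    WN A (z * e) al N sg φ where
  isSg := w.isSg
  pos := w.pos
  inj := w.inj
  mulI := fun x => by
    have h0 : φ x ∈ V0 A z al := by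
      rw [mem_V0, Pool.Agent.N755.BGRR.ext_z hz w, Pool.Agent.N755.BGRR.ext_z hz w, ← map_smul,
        ← map_add]
      have e1 : al • (Complex.I • (al • (Complex.I • x))) + (al ^ 2) • x = 0 := by
        ext i
        simp only [Pi.smul_apply, Pi.add_apply, smul_eq_mul, Complex.real_smul, Pi.zero_apply]
        push_cast
        linear_combination ((al : ℂ) ^ 2 * x i) * Complex.I_mul_I
      rw [e1, map_zero]
    rw [Pool.Agent.N208.AD.ext_mul, Module.End.mul_apply, e_V0 hz h h0, w.mulI]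
  cx := w.cx
  form := w.form
  stab := w.stab
  simple := w.simple
  gen := fun y hy h0 x hx => w.gen y hy h0 x ((V0_eq hz h x).1 hx)

end

/-- **Mixed parts.** -/
structure MPt (A : AbVar g) (z : Module.End ℚ A.H1) (Sg : Finset ℝ) : Prop where
  mem : z ∈ A.EA
  cen : ∀ P ∈ A.EA, z * P = P * z
  skew : IsSkew A.om z
  gen : ∀ P ∈ A.EA, (∀ Q ∈ A.EA, P * Q = Q * P) →
    ∃ q : Polynomial ℚ, P * z = Polynomial.aeval z q * z
  ne : ∀ al ∈ Sg, al ≠ 0
  e1 : ∀ al ∈ Sg, ∃ x, x ≠ 0 ∧ Eig A z al x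
  e2 : ∀ al ∈ Sg, ∃ x, x ≠ 0 ∧ Eig A z (-al) x
  disj : ∀ al ∈ Sg, -al ∉ Sg
  sep : SepG A z Sg
  kind : ∀ al ∈ Sg, ((∀ x y, x ≠ 0 → Eig A z al x → Eig A z al y →
      y ∈ Submodule.span ℂ {w | ∃ P ∈ A.EA, w = A.ext P x}) ∧ Sep A z {al}) ∨
    ∃ e q, DivPl A z e al q

theorem MPt.hq {Sg : Finset ℝ} (h : MPt A z Sg) {al : ℝ} (ha : al ∈ Sg) : HQ A z al where
  mem := h.mem
  cen := h.cen
  skew := h.skew
  gen := h.gen
  ne := h.ne al ha
  ex := by
    obtain ⟨x, hx, hxe⟩ := h.e1 al ha
    exact ⟨x, eig_mem_V0 h.mem rfl hxe, hx⟩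

theorem hg_of {Sg : Finset ℝ} (h : MPt A z Sg) : HG A z Sg where
  hq := fun _ ha => h.hq ha
  disj := h.disj
  sep := h.sep
  big := by
    intro al ha N sg φ hW
    have hm := mixed_of (h.hq ha) (h.e1 _ ha) (h.e2 _ ha) hW
    refine ⟨hm, fun 𝔮 hq => ?_⟩
    rcases h.kind al ha with ⟨h1, h2⟩ | ⟨e, q, h1⟩
    · have hp : HP A z al :=
        { mem := h.mem, cen := h.cen, skew := h.skew, gen := h.gen, ne := h.ne al ha
          ex := h.e1 al ha, simple := h1 }
      exact big_ball hp h2 hW hm hq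
    · exact mainq Pool.Agent.N755.BGRR.main (hq_e (h.hq ha) h1) h1.pd (wn_e (h.hq ha) h1 hW) hq

theorem rpartM {Sg : Finset ℝ} (h : MPt A z Sg) : RPart A (Pool.Agent.N208.BT.US A z Sg) :=
  rpartG (hg_of h)

end Pool.Agent.H943.MX
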